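import Pool.Agent.Q155.XI.Prod

set_option autoImplicit false

/-!
# The product formula for the cross-index fails for every nice group of non-prime order

For every nice group `G` (a cyclic group of prime power order or a generalized quaternion group of
two-power order) whose order is not a prime there are finite free `G`-simplicial posets `P₁`, `P₂`
with `Xind P₁ ≥ 2`, `Xind P₂ ≥ 2` and `Xind (P₁ × P₂) ≤ 1`.

The posets are the face posets of the two complexes of
`Pool/Agent/Results/MP_19f4d1_co/NiceGroups.lean`.  A `G`-map from the face poset to `Q_n G` gives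
a continuous `G`-map from the realization to `E_n G` (a subdivision argument with explicit
weights), which gives the lower bounds; the evaluation of the functions in a face of the first
complex at the coset of a face of the second one gives an order-preserving map to `Q_1 G`.
-/

namespace Pool.Agent.Results.MP_c44c69_co.NiceNonprime

open Pool.Agent.Results.MP_19f4d1_co.CyclicOrderFour (IsNice)
open Pool.Agent.Q155.XI

theorem nice_four : IsNice (Multiplicative (ZMod 4)) := by
  refine Or.inl ⟨2, 2, Nat.prime_two, by norm_num, inferInstance, ?_⟩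
  rw [Nat.card_eq_fintype_card]
  rfl

/-- **The product formula for the cross-index fails.**  For every nice group `G` whose order is not
a prime there are finite free `G`-simplicial posets `P₁`, `P₂` with `Xind P₁ ≥ 2`, `Xind P₂ ≥ 2`
and `Xind (P₁ × P₂) ≤ 1`.  In particular it is not true that
`Xind (P₁ × P₂) = min {Xind P₁, Xind P₂}` for all nice groups `G` and all finite free
`G`-simplicial posets. -/
theorem result :
    (∀ (G : Type) [Group G] [Fintype G], IsNice G → ¬ (Nat.card G).Prime →
      ∃ P₁ P₂ : FreeSimplicialPoset G,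
        2 ≤ Xind G P₁.P ∧ 2 ≤ Xind G P₂.P ∧ Xind G (P₁.P × P₂.P) ≤ 1 ∧
          Xind G (P₁.P × P₂.P) < min (Xind G P₁.P) (Xind G P₂.P)) ∧
    ¬ ∀ (G : Type) [Group G] [Fintype G], IsNice G → ∀ P₁ P₂ : FreeSimplicialPoset G,
        Xind G (P₁.P × P₂.P) = min (Xind G P₁.P) (Xind G P₂.P) := by
  have key : ∀ (G : Type) [Group G] [Fintype G], IsNice G → ¬ (Nat.card G).Prime →
      ∃ P₁ P₂ : FreeSimplicialPoset G,
        2 ≤ Xind G P₁.P ∧ 2 ≤ Xind G P₂.P ∧ Xind G (P₁.P × P₂.P) ≤ 1 ∧
          Xind G (P₁.P × P₂.P) < min (Xind G P₁.P) (Xind G P₂.P) := by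
    intro G _ _ hG hn
    obtain ⟨P₁, P₂, h1, h2, h3⟩ := nice_case G hG hn
    refine ⟨P₁, P₂, h1, h2, h3, lt_of_le_of_lt h3 (lt_of_lt_of_le ?_ (le_min h1 h2))⟩
    norm_num
  refine ⟨key, fun h => ?_⟩
  obtain ⟨P₁, P₂, -, -, -, h4⟩ := key (Multiplicative (ZMod 4)) nice_four (by
    rw [Nat.card_eq_fintype_card]
    show ¬ Nat.Prime 4
    norm_num)
  exact h4.ne (h _ nice_four P₁ P₂)

end Pool.Agent.Results.MP_c44c69_co.NiceNonprime
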